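import Mathlib

namespace Pool.Agent.MP_096971_nt

/-- The base-`b` elated function: leading digit times the sum of the squares of the digits.
`Nat.digits b a` lists the digits of `a` from the least significant one, so the last entry is
the leading digit. -/
def elated (b a : ℕ) : ℕ :=
  (Nat.digits b a).getLastD 0 * ((Nat.digits b a).map (fun d => d ^ 2)).sum

/-- `S` is a cycle of the base-`b` elated function. -/
def IsCycle (b : ℕ) (S : Set ℕ) : Prop :=
  ∃ (k : ℕ) (x : ℕ → ℕ), 1 ≤ k ∧ Set.InjOn x (Set.Iio k) ∧ (∀ j, j < k → 0 < x j) ∧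
    (∀ j, j + 1 < k → elated b (x j) = x (j + 1)) ∧ elated b (x (k - 1)) = x 0 ∧
    S = x '' Set.Iio k

/-- The set of all cycles of the base-`b` elated function. -/
def cycles (b : ℕ) : Set (Set ℕ) := {S | IsCycle b S}

end Pool.Agent.MP_096971_nt
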