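import Pool.Agent.MP_096971_nt.Defs

namespace Pool.Agent.MP_096971_nt

/-! ### Finiteness of the set of cycles -/

lemma digits_sq_sum_le (b : ℕ) (L : List ℕ) (h : ∀ d ∈ L, d < b) :
    (L.map (fun d => d ^ 2)).sum ≤ L.length * (b - 1) ^ 2 := by
  induction L with
  | nil => simp
  | cons a L ih =>
    have h1 : a ≤ b - 1 := by have := h a (by simp); omega
    have h2 := ih (fun d hd => h d (by simp [hd]))
    have h3 : a ^ 2 ≤ (b - 1) ^ 2 := Nat.pow_le_pow_left h1 2
    simp only [List.map_cons, List.sum_cons, List.length_cons]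
    nlinarith

lemma elated_le (b a : ℕ) (hb : 2 ≤ b) :
    elated b a ≤ (Nat.digits b a).length * (b - 1) ^ 3 := by
  have hd : ∀ d ∈ Nat.digits b a, d < b := fun d hd => Nat.digits_lt_base (by omega) hd
  have h1 := digits_sq_sum_le b _ hd
  have h2 : (Nat.digits b a).getLastD 0 ≤ b - 1 := by
    rcases List.mem_cons.mp (List.getLastD_mem_cons (l := Nat.digits b a) (a := 0)) with h | h
    · rw [h]; exact Nat.zero_le _
    · have := hd _ h; omega
  unfold elated
  calc _ ≤ (b - 1) * ((Nat.digits b a).length * (b - 1) ^ 2) := Nat.mul_le_mul h2 h1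
    _ = _ := by ring

lemma aux_pow (c n : ℕ) (hc : 1 ≤ c) : (n + 5) * c ^ 3 < (c + 1) ^ (n + 4) := by
  induction n with
  | zero =>
    have : 0 < c ^ 2 := by positivity
    have h4 : c ^ 3 ≤ c ^ 4 := Nat.pow_le_pow_right hc (by norm_num)
    have : (c + 1) ^ 4 = c ^ 4 + 4 * c ^ 3 + 6 * c ^ 2 + 4 * c + 1 := by ring
    simp only [zero_add]
    omega
  | succ n ih =>
    have h : (c + 1) ^ (n + 1 + 4) = (c + 1) ^ (n + 4) * (c + 1) := by ring
    rw [h]
    have h3 : 0 < c ^ 3 := by positivity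
    have h4 : (c + 1) ^ (n + 4) * 2 ≤ (c + 1) ^ (n + 4) * (c + 1) :=
      Nat.mul_le_mul_left _ (by omega)
    have h5 : (n + 1 + 5) * c ^ 3 = (n + 5) * c ^ 3 + c ^ 3 := by ring
    have h6 : c ^ 3 ≤ (n + 5) * c ^ 3 := Nat.le_mul_of_pos_left _ (by omega)
    omega

lemma elated_lt (b a : ℕ) (hb : 2 ≤ b) (ha : b ^ 4 ≤ a) : elated b a < a := by
  have ha0 : a ≠ 0 := by
    have : 0 < b ^ 4 := by positivity
    omega
  have hlen : 4 < (Nat.digits b a).length := by
    rw [Nat.lt_digits_length_iff (by omega)]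
    exact ha
  obtain ⟨n, hn⟩ : ∃ n, (Nat.digits b a).length = n + 5 := ⟨(Nat.digits b a).length - 5, by omega⟩
  have h1 : b ^ (n + 4) ≤ a := by
    rw [← Nat.lt_digits_length_iff (by omega)]
    omega
  have h2 := elated_le b a hb
  rw [hn] at h2
  have h3 := aux_pow (b - 1) n (by omega)
  have : b - 1 + 1 = b := by omega
  rw [this] at h3
  omega

lemma elated_small (b a : ℕ) (hb : 2 ≤ b) (ha : a < b ^ 4) : elated b a ≤ 4 * (b - 1) ^ 3 := by
  have hlen : (Nat.digits b a).length ≤ 4 := by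
    rw [Nat.digits_length_le_iff (by omega)]
    exact ha
  exact (elated_le b a hb).trans (Nat.mul_le_mul_right _ hlen)

lemma cycle_bound (b : ℕ) (hb : 2 ≤ b) (S : Set ℕ) (hS : IsCycle b S) :
    S ⊆ Set.Iic (4 * (b - 1) ^ 3) := by
  obtain ⟨k, x, hk, -, -, h1, h2, rfl⟩ := hS
  have hpre : ∀ j, j < k → ∃ i, i < k ∧ elated b (x i) = x j := by
    intro j hj
    rcases j with _ | j
    · exact ⟨k - 1, by omega, h2⟩
    · exact ⟨j, by omega, h1 j hj⟩
  obtain ⟨m, hm, hmax⟩ := (Finset.range k).exists_max_image x ⟨0, by simp; omega⟩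
  have hm' : m < k := Finset.mem_range.mp hm
  obtain ⟨i, hi, hxi⟩ := hpre m hm'
  have hi2 : x i ≤ x m := hmax i (Finset.mem_range.mpr hi)
  have hsm : x m ≤ 4 * (b - 1) ^ 3 := by
    by_cases h : b ^ 4 ≤ x i
    · have := elated_lt b (x i) hb h
      omega
    · rw [← hxi]; exact elated_small b _ hb (by omega)
  rintro _ ⟨j, hj, rfl⟩
  exact (hmax j (Finset.mem_range.mpr hj)).trans hsm

lemma cycles_finite (b : ℕ) (hb : 2 ≤ b) : (cycles b).Finite :=
  ((Set.finite_Iic (4 * (b - 1) ^ 3)).finite_subsets).subset fun S hS => cycle_bound b hb S hS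

/-! ### Three-digit fixed points with leading digit two -/

lemma elated_three (b y z : ℕ) (hb : 2 < b) (hy : y < b) (hz : z < b) :
    elated b (z + b * (y + b * 2)) = 2 * (z ^ 2 + y ^ 2 + 4) := by
  have h1 : Nat.digits b (z + b * (y + b * 2)) = [z, y, 2] := by
    rw [Nat.digits_add b (by omega) z _ hz (Or.inr (by positivity)),
      Nat.digits_add b (by omega) y _ hy (Or.inr (by norm_num)), Nat.digits_of_lt b 2 (by norm_num) hb]
  unfold elated
  rw [h1]
  simp
  ring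

def UU (s : ℤ) : ℤ := 1768 * s ^ 2 + 238 * s + 18
def VV (s : ℤ) : ℤ := 2176 * s ^ 2 + 136 * s + 15
def BB (s : ℤ) : ℤ := 680 * s ^ 2 + 62 * s + 6
def NN (s : ℤ) : ℤ := UU s ^ 2 + VV s ^ 2
def RR (s t : ℤ) : ℤ := UU s * (UU t ^ 2 - VV t ^ 2) + 2 * VV s * UU t * VV t
def II (s t : ℤ) : ℤ := 2 * UU s * UU t * VV t - VV s * (UU t ^ 2 - VV t ^ 2)

lemma NN_eq (s : ℤ) : NN s = 17 * BB s ^ 2 - 63 := by
  unfold NN UU VV BB; ring

lemma NN_pos (s : ℤ) (hs : 0 ≤ s) : 0 < NN s := by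
  unfold NN UU VV; positivity

lemma ineqs (s t : ℤ) (hs : 1 ≤ s) (ht : 1 ≤ t) :
    0 < RR s t + BB s * NN t ∧ 0 < 3 * BB s * NN t - RR s t ∧ 0 < II s t + NN t ∧
      0 < (4 * BB s - 1) * NN t - II s t := by
  obtain ⟨s, rfl⟩ : ∃ s' : ℕ, s = s' + 1 := ⟨(s - 1).toNat, by omega⟩
  obtain ⟨t, rfl⟩ : ∃ t' : ℕ, t = t' + 1 := ⟨(t - 1).toNat, by omega⟩
  unfold RR II NN UU VV BB
  refine ⟨?_, ?_, ?_, ?_⟩ <;> ring_nf <;> positivity

/-- The reflected solution. -/
lemma exists_yz (s t : ℤ) (h : 4 * NN t ∣ s - t) :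
    ∃ y z : ℤ, NN t * (4 * y - BB s) = RR s t ∧ NN t * (4 * z - 1) = II s t := by
  obtain ⟨k, hk⟩ := h
  have hU : UU s = UU t + 4 * NN t * k * (1768 * (s + t) + 238) := by
    rw [← hk]; unfold UU; ring
  have hV : VV s = VV t + 4 * NN t * k * (2176 * (s + t) + 136) := by
    rw [← hk]; unfold VV; ring
  have hU' : UU s = 4 * (612 * s ^ 2 + 75 * s + 6) - BB s := by unfold UU BB; ring
  have hV' : VV s = 4 * (544 * s ^ 2 + 34 * s + 4) - 1 := by unfold VV; ring
  set D1 := 1768 * (s + t) + 238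
  set D2 := 2176 * (s + t) + 136
  refine ⟨612 * s ^ 2 + 75 * s + 6 +
      k * ((UU t ^ 2 - VV t ^ 2) * D1 + 2 * UU t * VV t * D2 - NN t * D1),
    544 * s ^ 2 + 34 * s + 4 +
      k * (2 * UU t * VV t * D1 - (UU t ^ 2 - VV t ^ 2) * D2 - NN t * D2), ?_, ?_⟩
  · have : 4 * (612 * s ^ 2 + 75 * s + 6 +
      k * ((UU t ^ 2 - VV t ^ 2) * D1 + 2 * UU t * VV t * D2 - NN t * D1)) - BB s =
        UU s + 4 * k * ((UU t ^ 2 - VV t ^ 2) * D1 + 2 * UU t * VV t * D2 - NN t * D1) := by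
      rw [hU']; ring
    rw [this]
    unfold RR
    rw [hU, hV]
    unfold NN
    ring
  · have : 4 * (544 * s ^ 2 + 34 * s + 4 +
      k * (2 * UU t * VV t * D1 - (UU t ^ 2 - VV t ^ 2) * D2 - NN t * D2)) - 1 =
        VV s + 4 * k * (2 * UU t * VV t * D1 - (UU t ^ 2 - VV t ^ 2) * D2 - NN t * D2) := by
      rw [hV']; ring
    rw [this]
    unfold II
    rw [hU, hV]
    unfold NN
    ring

lemma norm_RI (s t : ℤ) : RR s t ^ 2 + II s t ^ 2 = NN s * NN t ^ 2 := by
  unfold RR II NN; ring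

/-- The data attached to a pair `(s, t)`. -/
lemma exists_fixed (s t : ℤ) (hs : 1 ≤ s) (ht : 1 ≤ t) (h : 4 * NN t ∣ s - t) :
    ∃ y z : ℕ, (y : ℤ) < BB s ∧ (z : ℤ) < BB s ∧
      (z : ℤ) + BB s * (y + BB s * 2) = 2 * (z ^ 2 + y ^ 2 + 4) ∧
      NN t * (4 * y - BB s) = RR s t ∧ NN t * (4 * z - 1) = II s t := by
  obtain ⟨y, z, hy, hz⟩ := exists_yz s t h
  obtain ⟨i1, i2, i3, i4⟩ := ineqs s t hs ht
  have hN := NN_pos t (by omega)
  have y0 : 0 < y := by
    have : 0 < NN t * (4 * y) := by linarith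
    have := (mul_pos_iff_of_pos_left hN).mp this
    omega
  have y1 : y < BB s := by
    have : 0 < NN t * (4 * BB s - 4 * y) := by linarith
    have := (mul_pos_iff_of_pos_left hN).mp this
    omega
  have z0 : 0 < z := by
    have : 0 < NN t * (4 * z) := by linarith
    have := (mul_pos_iff_of_pos_left hN).mp this
    omega
  have z1 : z < BB s := by
    have : 0 < NN t * (4 * BB s - 4 * z) := by linarith
    have := (mul_pos_iff_of_pos_left hN).mp this
    omega
  have hn : (4 * y - BB s) ^ 2 + (4 * z - 1) ^ 2 = 17 * BB s ^ 2 - 63 := by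
    have h1 := norm_RI s t
    rw [← hy, ← hz, NN_eq s] at h1
    have h2 : NN t ^ 2 * ((4 * y - BB s) ^ 2 + (4 * z - 1) ^ 2) =
        NN t ^ 2 * (17 * BB s ^ 2 - 63) := by linarith
    exact mul_left_cancel₀ (by positivity) h2
  lift y to ℕ using y0.le
  lift z to ℕ using z0.le
  refine ⟨y, z, y1, z1, ?_, hy, hz⟩
  linarith

lemma inj_aux (s t t' Y Z : ℤ) (hs : 1 ≤ s) (ht : 1 ≤ t) (ht' : 1 ≤ t')
    (h1 : NN t * Y = RR s t) (h2 : NN t * Z = II s t)
    (h3 : NN t' * Y = RR s t') (h4 : NN t' * Z = II s t') : t = t' := by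
  have hNs := NN_pos s (by omega)
  have hNt := NN_pos t (by omega)
  have hNt' := NN_pos t' (by omega)
  have e1 : NN t' * RR s t = NN t * RR s t' := by rw [← h1, ← h3]; ring
  have e2 : NN t' * II s t = NN t * II s t' := by rw [← h2, ← h4]; ring
  have e3 : NN s * (NN t' * (UU t ^ 2 - VV t ^ 2)) = NN s * (NN t * (UU t' ^ 2 - VV t' ^ 2)) := by
    unfold RR at e1; unfold II at e2
    have : NN s = UU s ^ 2 + VV s ^ 2 := rfl
    rw [this]
    linear_combination UU s * e1 - VV s * e2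
  have e4 := mul_left_cancel₀ hNs.ne' e3
  have e5 : (UU t * VV t' - VV t * UU t') * (UU t * VV t' + VV t * UU t') = 0 := by
    unfold NN at e4
    linarith
  have p1 : 0 < UU t * VV t' + VV t * UU t' := by
    have : 0 ≤ t := by omega
    have : 0 ≤ t' := by omega
    unfold UU VV; positivity
  have e6 : UU t * VV t' - VV t * UU t' = 0 := by
    rcases mul_eq_zero.mp e5 with h | h
    · exact h
    · omega
  have e7 : (t' - t) * (12648 * (t + t') + 277440 * t * t' - 1122) = 0 := by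
    unfold UU VV at e6
    linarith
  have p2 : 0 < 12648 * (t + t') + 277440 * t * t' - 1122 := by nlinarith
  rcases mul_eq_zero.mp e7 with h | h
  · omega
  · omega

lemma exists_chain (K : ℕ) : ∃ (T : Finset ℤ) (s : ℤ), T.card = K ∧ 1 ≤ s ∧
    (∀ t ∈ T, 1 ≤ t ∧ t < s ∧ 4 * NN t ∣ s - t) := by
  induction K with
  | zero => exact ⟨∅, 1, by simp, le_rfl, by simp⟩
  | succ K ih =>
    obtain ⟨T, s, hT, hs, h⟩ := ih
    have hsT : s ∉ T := fun hh => lt_irrefl _ (h s hh).2.1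
    have hpos : 0 < ∏ t ∈ insert s T, NN t := by
      apply Finset.prod_pos
      intro t ht
      rcases Finset.mem_insert.mp ht with rfl | ht
      · exact NN_pos _ (by omega)
      · exact NN_pos _ (by have := (h t ht).1; omega)
    refine ⟨insert s T, s + 4 * ∏ t ∈ insert s T, NN t, by rw [Finset.card_insert_of_notMem hsT, hT],
      by omega, ?_⟩
    intro t ht
    have hd : 4 * NN t ∣ 4 * ∏ t ∈ insert s T, NN t :=
      mul_dvd_mul_left 4 (Finset.dvd_prod_of_mem _ ht)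
    rcases Finset.mem_insert.mp ht with rfl | ht
    · exact ⟨hs, by omega, by simpa using hd⟩
    · obtain ⟨h1, h2, h3⟩ := h t ht
      refine ⟨h1, by omega, ?_⟩
      have : s + 4 * ∏ t ∈ insert s T, NN t - t = (s - t) + 4 * ∏ t ∈ insert s T, NN t := by ring
      rw [this]
      exact dvd_add h3 hd

lemma isCycle_singleton (b a : ℕ) (ha : 0 < a) (h : elated b a = a) : IsCycle b {a} := by
  refine ⟨1, fun _ => a, le_rfl, ?_, fun _ _ => ha, fun j hj => by omega, h, ?_⟩
  · intro i hi j hj _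
    simp only [Set.mem_Iio] at hi hj
    omega
  · ext x
    simp only [Set.mem_singleton_iff, Set.mem_image, Set.mem_Iio]
    exact ⟨fun hx => ⟨0, by norm_num, hx.symm⟩, fun ⟨_, _, hx⟩ => hx.symm⟩

theorem main (M : ℕ) : ∃ b : ℕ, 2 ≤ b ∧ (cycles b).Finite ∧ M < (cycles b).ncard := by
  obtain ⟨T, s, hT, hs, h⟩ := exists_chain (M + 1)
  have hB : 2 < BB s := by unfold BB; nlinarith
  obtain ⟨b, hb⟩ : ∃ b : ℕ, BB s = b := ⟨(BB s).toNat, by omega⟩
  have hb2 : 2 < b := by omega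
  have hex : ∀ t : T, ∃ y z : ℕ, (y : ℤ) < BB s ∧ (z : ℤ) < BB s ∧
      (z : ℤ) + BB s * (y + BB s * 2) = 2 * (z ^ 2 + y ^ 2 + 4) ∧
      NN t * (4 * y - BB s) = RR s t ∧ NN t * (4 * z - 1) = II s t :=
    fun t => exists_fixed s t hs (h t t.2).1 (h t t.2).2.2
  choose y z hy hz hfix h1 h2 using hex
  have hy' : ∀ t, y t < b := fun t => by have := hy t; omega
  have hz' : ∀ t, z t < b := fun t => by have := hz t; omega
  let f : T → Set ℕ := fun t => {z t + b * (y t + b * 2)}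
  have hf : ∀ t, f t ∈ cycles b := by
    intro t
    apply isCycle_singleton
    · positivity
    · rw [elated_three b _ _ hb2 (hy' t) (hz' t)]
      have := hfix t
      rw [hb] at this
      exact_mod_cast this.symm
  have hinj : Function.Injective f := by
    intro t t' htt
    have e : z t + b * (y t + b * 2) = z t' + b * (y t' + b * 2) := Set.singleton_injective htt
    have ez : z t = z t' := by
      have := congrArg (· % b) e
      simpa [Nat.mod_eq_of_lt (hz' t), Nat.mod_eq_of_lt (hz' t')] using this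
    have ey : y t = y t' := by
      rw [ez] at e
      have := Nat.eq_of_mul_eq_mul_left (by omega) (Nat.add_left_cancel e)
      omega
    apply Subtype.ext
    refine inj_aux s t t' (4 * y t - BB s) (4 * z t - 1) hs (h t t.2).1 (h t' t'.2).1 (h1 t) (h2 t) ?_ ?_
    · rw [ey]; exact h1 t'
    · rw [ez]; exact h2 t'
  have hfin := cycles_finite b (by omega)
  refine ⟨b, by omega, hfin, ?_⟩
  have : (Set.range f).ncard ≤ (cycles b).ncard :=
    Set.ncard_le_ncard (by rintro _ ⟨t, rfl⟩; exact hf t) hfin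
  rw [Set.ncard_range_of_injective hinj] at this
  simp only [Nat.card_eq_fintype_card, Fintype.card_coe] at this
  omega

end Pool.Agent.MP_096971_nt
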